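import Mathlib

/-! # [H12 A3 GEO2] geometric sums over sets of scales (AA3 without logarithm, helper12) -/

namespace Pool.Agent.H12.A3

open Finset

theorem geo_up (F : Finset ℕ) (Y : ℝ) (hY : 0 ≤ Y) (h : ∀ s ∈ F, (2 : ℝ) ^ s ≤ Y) : ∑ s ∈ F, (2 : ℝ) ^ s ≤ 2 * Y := by
  rcases F.eq_empty_or_nonempty with hF | hF
  · rw [hF, sum_empty]
    linarith
  · have h1 : F ⊆ range (F.max' hF + 1) := by
      intro s hs
      rw [mem_range, Nat.lt_succ_iff]
      exact le_max' _ _ hs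
    have h2 : ∑ s ∈ range (F.max' hF + 1), (2 : ℝ) ^ s = 2 ^ (F.max' hF + 1) - 1 := by
      rw [geom_sum_eq (by norm_num)]
      norm_num
    have h3 := h _ (F.max'_mem hF)
    calc ∑ s ∈ F, (2 : ℝ) ^ s ≤ ∑ s ∈ range (F.max' hF + 1), (2 : ℝ) ^ s :=
          sum_le_sum_of_subset_of_nonneg h1 fun _ _ _ => by positivity
      _ = 2 ^ (F.max' hF + 1) - 1 := h2
      _ ≤ 2 * Y := by rw [pow_succ]; linarith

theorem half_sum (N : ℕ) : ∑ i ∈ range N, ((1 : ℝ) / 2) ^ i ≤ 2 := by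
  rw [geom_sum_eq (by norm_num)]
  have : (0 : ℝ) ≤ (1 / 2) ^ N := by positivity
  rw [div_le_iff_of_neg (by norm_num)]
  linarith

theorem geo_down (F : Finset ℕ) (y : ℝ) (hy : 0 < y) (h : ∀ s ∈ F, y ≤ (2 : ℝ) ^ s) : ∑ s ∈ F, 1 / (2 : ℝ) ^ s ≤ 2 / y := by
  rcases F.eq_empty_or_nonempty with hF | hF
  · rw [hF, sum_empty]
    positivity
  · obtain ⟨m, hm⟩ : ∃ m : ℕ, m = F.min' hF := ⟨_, rfl⟩
    have hmF : m ∈ F := by rw [hm]; exact F.min'_mem hF
    have hle : ∀ s ∈ F, m ≤ s := fun s hs => by rw [hm]; exact min'_le _ _ hs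
    have hinj : Set.InjOn (fun s => s - m) (F : Set ℕ) := by
      intro a ha b hb hab
      have h1 := hle a ha
      have h2 := hle b hb
      simp only at hab
      omega
    have h1 : ∑ s ∈ F, 1 / (2 : ℝ) ^ s = ∑ s ∈ F, (1 / (2 : ℝ) ^ m) * (1 / 2) ^ (s - m) := by
      refine sum_congr rfl fun s hs => ?_
      have h2 : s = m + (s - m) := by have := hle s hs; omega
      rw [h2, pow_add, Nat.add_sub_cancel_left, div_pow, one_pow]
      field_simp
    have h3 : ∑ s ∈ F, ((1 : ℝ) / 2) ^ (s - m) ≤ 2 := by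
      rw [← sum_image (f := fun i => ((1 : ℝ) / 2) ^ i) (g := fun s => s - m) (s := F) hinj]
      have h4 : F.image (fun s => s - m) ⊆ range (((F.image (fun s => s - m)).sup id) + 1) := by
        intro i hi
        rw [mem_range, Nat.lt_succ_iff]
        exact le_sup (f := id) hi
      exact (sum_le_sum_of_subset_of_nonneg h4 fun _ _ _ => by positivity).trans (half_sum _)
    rw [h1, ← mul_sum]
    have h5 := h m hmF
    calc 1 / (2 : ℝ) ^ m * ∑ s ∈ F, ((1 : ℝ) / 2) ^ (s - m) ≤ 1 / (2 : ℝ) ^ m * 2 := mul_le_mul_of_nonneg_left h3 (by positivity)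
      _ = 2 / (2 : ℝ) ^ m := by ring
      _ ≤ 2 / y := div_le_div_of_nonneg_left (by norm_num) hy h5

end Pool.Agent.H12.A3
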