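import Pool.Agent.H12.A3.Arr
import Pool.Agent.H12.A3.Geo2

/-! # [H12 A3 CLS1] towards the array theorem of AA3 with `C H^2` light points (idea of helper97; written by helper12)

Windows with more than `3 (√H + 1)` points of one (root, sign, range of ratio `2 H`) have one direction `v`. At the scale `X` such a window has at most
`2 X / (κ a)` and at most `6 C H / (X δ)` points, `a = |v₁|`, `δ = |v₂ - θ v₁|`. The scales at which one of the two is small are summed as geometric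
series, the other points are heavy in the sense of `few`. -/

namespace Pool.Agent.H12.A3

open Finset Polynomial Pool.Agent.H8.AA Pool.Agent.H88.A2 Pool.Agent.H42.AA

theorem part (Q : Finset (ℤ × ℤ)) (κ : ℝ) (hκ : 1 ≤ κ) (m : ℕ → ℝ) (hm : ∀ s, 0 ≤ m s) (hQ : ∀ P ∈ Q, P.1 ≠ 0)
    (hw : ∀ s w, ((Q.filter (fun P => sc P.1 = s ∧ wi κ P.1 = w)).card : ℝ) ≤ m s) :
    (Q.card : ℝ) ≤ 2 * κ * ∑ s ∈ Q.image (fun P => sc P.1), m s := by
  classical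
  have hκ0 : 0 < κ := by linarith
  have h1 : ∀ s, ((Q.filter (fun P => sc P.1 = s)).card : ℝ) ≤ 2 * κ * m s := by
    intro s
    have hmaps : ∀ P ∈ Q.filter (fun P => sc P.1 = s), wi κ P.1 ∈ range (⌊κ⌋₊ + 1) := by
      intro P hP
      rw [mem_filter] at hP
      rw [mem_range, Nat.lt_succ_iff]
      unfold wi
      apply Nat.floor_le_floor
      have hX0 : (0 : ℝ) < 2 ^ sc P.1 := by positivity
      have g2 := lt_sc P.1
      rw [div_le_iff₀ hX0]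
      have h7 : |(P.1 : ℝ)| - 2 ^ sc P.1 ≤ 2 ^ sc P.1 := by linarith
      calc (|(P.1 : ℝ)| - 2 ^ sc P.1) * κ ≤ 2 ^ sc P.1 * κ := mul_le_mul_of_nonneg_right h7 hκ0.le
        _ = κ * 2 ^ sc P.1 := by ring
    rw [card_eq_sum_card_fiberwise hmaps]
    push_cast
    have h2 : ∀ w ∈ range (⌊κ⌋₊ + 1), (((Q.filter (fun P => sc P.1 = s)).filter (fun P => wi κ P.1 = w)).card : ℝ) ≤ m s := by
      intro w _
      rw [filter_filter]
      exact hw s w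
    refine (sum_le_sum h2).trans ?_
    rw [sum_const, card_range, nsmul_eq_mul]
    have h3 := Nat.floor_le hκ0.le
    push_cast
    have h4 : (⌊κ⌋₊ : ℝ) + 1 ≤ 2 * κ := by linarith
    exact mul_le_mul_of_nonneg_right h4 (hm s)
  have h2 : Q.card = ∑ s ∈ Q.image (fun P => sc P.1), (Q.filter (fun P => sc P.1 = s)).card :=
    card_eq_sum_card_fiberwise fun P hP => mem_image_of_mem _ hP
  rw [h2, mul_sum]
  push_cast
  exact sum_le_sum fun s _ => h1 s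

/-- two heavy points of one class, threshold `3 (√H + 1)`: same direction -/
theorem crs1 (C κ₀ θ : ℝ) (H R : ℕ) (hH : 1 ≤ H) (hκ : 6 * C < κ₀) (hC : 1 ≤ C) (hR : 9 * H ≤ R ^ 2)
    (P P' v v' : ℤ × ℤ) (hv : Hv θ κ₀ (6 * C) H R P v) (hv' : Hv θ κ₀ (6 * C) H R P' v')
    (hP0 : P.1 ≠ 0) (hP0' : P'.1 ≠ 0)
    (hPP : |(P.1 : ℝ)| ≤ 2 * H * |(P'.1 : ℝ)|) (hPP' : |(P'.1 : ℝ)| ≤ 2 * H * |(P.1 : ℝ)|) :
    v' = v ∨ v' = -v := by
  have hH' : (1 : ℝ) ≤ (H : ℝ) := by exact_mod_cast hH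
  have hH0 : (0 : ℝ) < (H : ℝ) := by linarith
  have hκ0 : 0 < κ₀ := by linarith
  have hR' : 9 * (H : ℝ) ≤ (R : ℝ) ^ 2 := by exact_mod_cast hR
  have half : ∀ (P P' v v' : ℤ × ℤ), |(v.1 : ℝ)| * R * (κ₀ * H) ≤ |(P.1 : ℝ)| →
      |(v'.2 : ℝ) - θ * v'.1| * R * |(P'.1 : ℝ)| ≤ 6 * C * H → P'.1 ≠ 0 → |(P.1 : ℝ)| ≤ 2 * H * |(P'.1 : ℝ)| →
      |(v.1 : ℝ) * (v'.2 - θ * v'.1)| < 1 / 2 := by
    intro P P' v v' hv hv' hP' hPP
    have hp0 : 0 < |(P'.1 : ℝ)| := abs_pos.2 (by exact_mod_cast hP')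
    rw [abs_mul]
    obtain ⟨a, ha⟩ : ∃ a : ℝ, a = |(v.1 : ℝ)| := ⟨_, rfl⟩
    obtain ⟨b, hb⟩ : ∃ b : ℝ, b = |(v'.2 : ℝ) - θ * v'.1| := ⟨_, rfl⟩
    obtain ⟨x, hx⟩ : ∃ x : ℝ, x = |(P'.1 : ℝ)| := ⟨_, rfl⟩
    rw [← ha] at hv ⊢
    rw [← hb, ← hx] at hv'
    rw [← hb]
    rw [← hx] at hPP hp0
    have ha0 : 0 ≤ a := by rw [ha]; exact abs_nonneg _
    have hb0 : 0 ≤ b := by rw [hb]; exact abs_nonneg _
    have h1 : a * R * (κ₀ * H) ≤ 2 * H * x := hv.trans hPP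
    have h2 : (a * R * (κ₀ * H)) * (b * R * x) ≤ (2 * H * x) * (6 * C * H) :=
      mul_le_mul h1 hv' (by positivity) (by positivity)
    have h3 : ((a * b) * (R ^ 2 * κ₀)) * (H * x) ≤ (12 * C * H) * (H * x) := by
      have e1 : (a * R * (κ₀ * H)) * (b * R * x) = ((a * b) * (R ^ 2 * κ₀)) * (H * x) := by ring
      have e2 : (2 * (H : ℝ) * x) * (6 * C * H) = (12 * C * H) * (H * x) := by ring
      rwa [e1, e2] at h2
    have h4 : (a * b) * (R ^ 2 * κ₀) ≤ 12 * C * H := le_of_mul_le_mul_right h3 (by positivity)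
    have h5 : (a * b) * ((9 * H) * (6 * C)) ≤ (a * b) * (R ^ 2 * κ₀) := by
      refine mul_le_mul_of_nonneg_left ?_ (by positivity)
      exact mul_le_mul hR' hκ.le (by positivity) (by positivity)
    by_contra hcon
    push Not at hcon
    have h6 : (54 * (a * b)) * (C * H) ≤ 12 * (C * H) := by
      calc (54 * (a * b)) * (C * H) = (a * b) * ((9 * H) * (6 * C)) := by ring
        _ ≤ 12 * C * H := h5.trans h4
        _ = _ := by ring
    have h7 : 54 * (a * b) ≤ 12 := le_of_mul_le_mul_right h6 (by positivity)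
    linarith
  refine par hv.1 hv'.1 hv.2.1 ?_
  have d1 := half P P' v v' hv.2.2.1 hv'.2.2.2 hP0' hPP
  have d2 := half P' P v' v hv'.2.2.1 hv.2.2.2 hP0 hPP'
  have e1 : ((v.1 * v'.2 - v'.1 * v.2 : ℤ) : ℝ) = (v.1 : ℝ) * (v'.2 - θ * v'.1) - (v'.1 : ℝ) * (v.2 - θ * v.1) := by
    push_cast
    ring
  have b4 : |((v.1 * v'.2 - v'.1 * v.2 : ℤ) : ℝ)| < 1 := by
    rw [e1]
    refine lt_of_le_of_lt (abs_sub _ _) ?_
    linarith
  have b5 : |(v.1 * v'.2 - v'.1 * v.2 : ℤ)| < 1 := by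
    rw [← Int.cast_abs] at b4
    exact_mod_cast b4
  have := Int.abs_lt_one_iff.1 b5
  linarith

/-- the points of one class which are heavy but not very heavy -/
theorem cls1 (C κ₀ θ : ℝ) (H R C' : ℕ) (hH : 1 ≤ H) (hκ : 6 * C < κ₀) (hC : 1 ≤ C) (hC' : 1 ≤ C') (hR : 9 * H ≤ R ^ 2)
    (Q : Finset (ℤ × ℤ)) (W : ℤ × ℤ → Finset (ℤ × ℤ)) (hQ0 : ∀ P ∈ Q, P.1 ≠ 0)
    (hW : ∀ P ∈ Q, R < (W P).card)
    (hWs : ∀ P ∈ Q, Q.filter (fun P' => sc P'.1 = sc P.1 ∧ wi (κ₀ * H) P'.1 = wi (κ₀ * H) P.1) ⊆ W P)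
    (hWv : ∀ P ∈ Q, ∃ v : ℤ × ℤ, IsCoprime v.1 v.2 ∧ v.1 ≠ 0 ∧
      |(v.1 : ℝ)| * (((W P).card - 1 : ℕ) : ℝ) * (κ₀ * H) ≤ 2 ^ sc P.1 ∧ |(v.2 : ℝ) - θ * v.1| * (((W P).card - 1 : ℕ) : ℝ) * 2 ^ sc P.1 ≤ 3 * C * H)
    (hn : ∀ P ∈ Q, ¬ ∃ v, Hv θ κ₀ (6 * C) H (C' * H) P v)
    (hPP : ∀ P ∈ Q, ∀ P' ∈ Q, |(P.1 : ℝ)| ≤ 2 * H * |(P'.1 : ℝ)|) :
    (Q.card : ℝ) ≤ 16 * C' * κ₀ * H ^ 2 := by
  classical
  rcases Q.eq_empty_or_nonempty with hQ | ⟨P0, hP0⟩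
  · rw [hQ, card_empty]
    have : 0 ≤ κ₀ := by linarith
    have h2 : (0 : ℝ) ≤ 16 * C' * κ₀ * H ^ 2 := by positivity
    simpa using h2
  have hH' : (1 : ℝ) ≤ (H : ℝ) := by exact_mod_cast hH
  have hH0 : (0 : ℝ) < (H : ℝ) := by linarith
  have hκ0 : 0 < κ₀ := by linarith
  have hκ1 : 1 ≤ κ₀ * H := by nlinarith
  have hκH : 0 < κ₀ * H := by linarith
  have hC'0 : (1 : ℝ) ≤ (C' : ℝ) := by exact_mod_cast hC'
  have hR1 : 1 ≤ R := by
    rcases Nat.eq_zero_or_pos R with h | h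
    · rw [h] at hR
      omega
    · exact h
  have hHv : ∀ P ∈ Q, ∀ v : ℤ × ℤ, IsCoprime v.1 v.2 ∧ v.1 ≠ 0 ∧
      |(v.1 : ℝ)| * (((W P).card - 1 : ℕ) : ℝ) * (κ₀ * H) ≤ 2 ^ sc P.1 ∧ |(v.2 : ℝ) - θ * v.1| * (((W P).card - 1 : ℕ) : ℝ) * 2 ^ sc P.1 ≤ 3 * C * H →
      Hv θ κ₀ (6 * C) H R P v := by
    intro P hP v hv
    obtain ⟨h1, h2, h3, h4⟩ := hv
    have hc : (R : ℝ) ≤ (((W P).card - 1 : ℕ) : ℝ) := by
      have := hW P hP
      exact_mod_cast (by omega : R ≤ (W P).card - 1)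
    have g1 := sc_le (hQ0 P hP)
    have g2 := (lt_sc P.1).le
    refine ⟨h1, h2, ?_, ?_⟩
    · calc |(v.1 : ℝ)| * R * (κ₀ * H) ≤ |(v.1 : ℝ)| * (((W P).card - 1 : ℕ) : ℝ) * (κ₀ * H) := by gcongr
        _ ≤ _ := h3.trans g1
    · calc |(v.2 : ℝ) - θ * v.1| * R * |(P.1 : ℝ)| ≤ |(v.2 : ℝ) - θ * v.1| * (((W P).card - 1 : ℕ) : ℝ) * (2 * 2 ^ sc P.1) := by gcongr
        _ = 2 * (|(v.2 : ℝ) - θ * v.1| * (((W P).card - 1 : ℕ) : ℝ) * 2 ^ sc P.1) := by ring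
        _ ≤ 2 * (3 * C * H) := by linarith
        _ = _ := by ring
  obtain ⟨v, hv⟩ := hWv P0 hP0
  obtain ⟨a, ha⟩ : ∃ a : ℝ, a = |(v.1 : ℝ)| := ⟨_, rfl⟩
  obtain ⟨δ, hδ⟩ : ∃ δ : ℝ, δ = |(v.2 : ℝ) - θ * v.1| := ⟨_, rfl⟩
  have ha0 : 0 < a := by rw [ha]; exact abs_pos.2 (by exact_mod_cast hv.2.1)
  have hδ0 : 0 ≤ δ := by rw [hδ]; exact abs_nonneg _
  -- all directions agree
  have hall : ∀ P ∈ Q, ∃ w : ℤ × ℤ, IsCoprime w.1 w.2 ∧ w.1 ≠ 0 ∧ |(w.1 : ℝ)| = a ∧ |(w.2 : ℝ) - θ * w.1| = δ ∧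
      a * (((W P).card - 1 : ℕ) : ℝ) * (κ₀ * H) ≤ 2 ^ sc P.1 ∧ δ * (((W P).card - 1 : ℕ) : ℝ) * 2 ^ sc P.1 ≤ 3 * C * H := by
    intro P hP
    obtain ⟨w, hw⟩ := hWv P hP
    have h1 := crs1 C κ₀ θ H R hH hκ hC hR P0 P v w (hHv P0 hP0 v hv) (hHv P hP w hw) (hQ0 P0 hP0) (hQ0 P hP)
      (hPP P0 hP0 P hP) (hPP P hP P0 hP0)
    have e1 : |(w.1 : ℝ)| = a ∧ |(w.2 : ℝ) - θ * w.1| = δ := by
      rcases h1 with h | h
      · rw [h]
        exact ⟨ha.symm, hδ.symm⟩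
      · rw [h]
        simp only [Prod.fst_neg, Prod.snd_neg, Int.cast_neg, abs_neg]
        refine ⟨ha.symm, ?_⟩
        rw [hδ, ← abs_neg]
        congr 1
        ring
    refine ⟨w, hw.1, hw.2.1, e1.1, e1.2, ?_, ?_⟩
    · have := hw.2.2.1
      rwa [e1.1] at this
    · have := hw.2.2.2
      rwa [e1.2] at this
  -- the card of the windows
  have hcw : ∀ P ∈ Q, ((W P).card : ℝ) ≤ 2 * (((W P).card - 1 : ℕ) : ℝ) := by
    intro P hP
    have := hW P hP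
    exact_mod_cast (by omega : (W P).card ≤ 2 * ((W P).card - 1))
  obtain ⟨A, hA⟩ : ∃ A : Finset (ℤ × ℤ), A = Q.filter (fun P => (2 : ℝ) ^ sc P.1 ≤ a * C' * κ₀ * H ^ 2) := ⟨_, rfl⟩
  obtain ⟨B, hB⟩ : ∃ B : Finset (ℤ × ℤ), B = Q.filter (fun P => 0 < δ ∧ 3 * C / (δ * C') ≤ (2 : ℝ) ^ sc P.1) := ⟨_, rfl⟩
  have hAQ : A ⊆ Q := by rw [hA]; exact filter_subset _ _
  have hBQ : B ⊆ Q := by rw [hB]; exact filter_subset _ _
  have hcov : Q ⊆ A ∪ B := by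
    intro P hP
    rw [mem_union, hA, hB, mem_filter, mem_filter]
    by_contra hcon
    push Not at hcon
    obtain ⟨h1, h2⟩ := hcon
    obtain ⟨w, hw1, hw2, hw3, hw4, _, _⟩ := hall P hP
    apply hn P hP
    have g1 := sc_le (hQ0 P hP)
    have g2 := (lt_sc P.1).le
    refine ⟨w, hw1, hw2, ?_, ?_⟩
    · rw [hw3]
      push_cast
      have := h1 hP
      calc a * (C' * H) * (κ₀ * H) = a * C' * κ₀ * H ^ 2 := by ring
        _ ≤ 2 ^ sc P.1 := this.le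
        _ ≤ _ := g1
    · rw [hw4]
      push_cast
      rcases hδ0.eq_or_lt with h3 | h3
      · rw [← h3]
        simp only [zero_mul]
        positivity
      · have h4 := h2 hP h3
        rw [lt_div_iff₀ (by positivity)] at h4
        calc δ * (C' * H) * |(P.1 : ℝ)| ≤ δ * (C' * H) * (2 * 2 ^ sc P.1) := by gcongr
          _ = 2 * H * (2 ^ sc P.1 * (δ * C')) := by ring
          _ ≤ 2 * H * (3 * C) := by gcongr
          _ = _ := by ring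
  -- first kind
  have hA' : (A.card : ℝ) ≤ 8 * C' * κ₀ * H ^ 2 := by
    have h1 := part A (κ₀ * H) hκ1 (fun s => 2 * 2 ^ s / (a * (κ₀ * H))) (fun s => by positivity) (fun P hP => hQ0 P (hAQ hP)) (by
      intro s w
      rcases (A.filter (fun P => sc P.1 = s ∧ wi (κ₀ * H) P.1 = w)).eq_empty_or_nonempty with h | ⟨P, hP⟩
      · rw [h, card_empty]
        have h2 : (0 : ℝ) ≤ 2 * 2 ^ s / (a * (κ₀ * H)) := by positivity
        simpa using h2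
      · rw [mem_filter] at hP
        obtain ⟨hPA, hs, hw⟩ := hP
        have hPQ := hAQ hPA
        obtain ⟨_, _, _, _, _, h5, _⟩ := hall P hPQ
        have h6 : (A.filter (fun P => sc P.1 = s ∧ wi (κ₀ * H) P.1 = w)).card ≤ (W P).card := by
          refine card_le_card (subset_trans ?_ (hWs P hPQ))
          intro P' hP'
          rw [mem_filter] at hP' ⊢
          exact ⟨hAQ hP'.1, hP'.2.1.trans hs.symm, hP'.2.2.trans hw.symm⟩
        have h7 : ((A.filter (fun P => sc P.1 = s ∧ wi (κ₀ * H) P.1 = w)).card : ℝ) ≤ 2 * (((W P).card - 1 : ℕ) : ℝ) :=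
          le_trans (by exact_mod_cast h6) (hcw P hPQ)
        refine h7.trans ?_
        rw [le_div_iff₀ (by positivity)]
        rw [hs] at h5
        calc 2 * (((W P).card - 1 : ℕ) : ℝ) * (a * (κ₀ * H)) = 2 * (a * (((W P).card - 1 : ℕ) : ℝ) * (κ₀ * H)) := by ring
          _ ≤ 2 * 2 ^ s := by linarith)
    have h2 : ∑ s ∈ A.image (fun P => sc P.1), (2 : ℝ) ^ s ≤ 2 * (a * C' * κ₀ * H ^ 2) := by
      refine geo_up _ _ (by positivity) ?_
      intro s hs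
      obtain ⟨P, hP, rfl⟩ := mem_image.1 hs
      rw [hA, mem_filter] at hP
      exact hP.2
    refine h1.trans ?_
    have h3 : ∑ s ∈ A.image (fun P => sc P.1), 2 * (2 : ℝ) ^ s / (a * (κ₀ * H)) =
        2 / (a * (κ₀ * H)) * ∑ s ∈ A.image (fun P => sc P.1), (2 : ℝ) ^ s := by
      rw [mul_sum]
      refine sum_congr rfl fun s _ => ?_
      ring
    rw [h3]
    calc 2 * (κ₀ * H) * (2 / (a * (κ₀ * H)) * ∑ s ∈ A.image (fun P => sc P.1), (2 : ℝ) ^ s)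
        ≤ 2 * (κ₀ * H) * (2 / (a * (κ₀ * H)) * (2 * (a * C' * κ₀ * H ^ 2))) := by gcongr
      _ = 8 * C' * κ₀ * H ^ 2 := by field_simp; ring
  -- second kind
  have hB' : (B.card : ℝ) ≤ 8 * C' * κ₀ * H ^ 2 := by
    rcases hδ0.eq_or_lt with h3 | h3
    · have : B = ∅ := by
        rw [hB, filter_eq_empty_iff]
        intro P _ h
        rw [← h3] at h
        exact lt_irrefl _ h.1
      rw [this, card_empty]
      have h2 : (0 : ℝ) ≤ 8 * C' * κ₀ * H ^ 2 := by positivity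
      simpa using h2
    have h1 := part B (κ₀ * H) hκ1 (fun s => 6 * C * H / (δ * 2 ^ s)) (fun s => by positivity) (fun P hP => hQ0 P (hBQ hP)) (by
      intro s w
      rcases (B.filter (fun P => sc P.1 = s ∧ wi (κ₀ * H) P.1 = w)).eq_empty_or_nonempty with h | ⟨P, hP⟩
      · rw [h, card_empty]
        have h2 : (0 : ℝ) ≤ 6 * C * H / (δ * 2 ^ s) := by positivity
        simpa using h2
      · rw [mem_filter] at hP
        obtain ⟨hPB, hs, hw⟩ := hP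
        have hPQ := hBQ hPB
        obtain ⟨_, _, _, _, _, _, h5⟩ := hall P hPQ
        have h6 : (B.filter (fun P => sc P.1 = s ∧ wi (κ₀ * H) P.1 = w)).card ≤ (W P).card := by
          refine card_le_card (subset_trans ?_ (hWs P hPQ))
          intro P' hP'
          rw [mem_filter] at hP' ⊢
          exact ⟨hBQ hP'.1, hP'.2.1.trans hs.symm, hP'.2.2.trans hw.symm⟩
        have h7 : ((B.filter (fun P => sc P.1 = s ∧ wi (κ₀ * H) P.1 = w)).card : ℝ) ≤ 2 * (((W P).card - 1 : ℕ) : ℝ) :=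
          le_trans (by exact_mod_cast h6) (hcw P hPQ)
        refine h7.trans ?_
        rw [le_div_iff₀ (by positivity)]
        rw [hs] at h5
        calc 2 * (((W P).card - 1 : ℕ) : ℝ) * (δ * 2 ^ s) = 2 * (δ * (((W P).card - 1 : ℕ) : ℝ) * 2 ^ s) := by ring
          _ ≤ 6 * C * H := by linarith)
    have h2 : ∑ s ∈ B.image (fun P => sc P.1), 1 / (2 : ℝ) ^ s ≤ 2 / (3 * C / (δ * C')) := by
      refine geo_down _ _ (by positivity) ?_
      intro s hs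
      obtain ⟨P, hP, rfl⟩ := mem_image.1 hs
      rw [hB, mem_filter] at hP
      exact hP.2.2
    refine h1.trans ?_
    have h4 : ∑ s ∈ B.image (fun P => sc P.1), 6 * C * H / (δ * (2 : ℝ) ^ s) =
        6 * C * H / δ * ∑ s ∈ B.image (fun P => sc P.1), 1 / (2 : ℝ) ^ s := by
      rw [mul_sum]
      refine sum_congr rfl fun s _ => ?_
      field_simp
    rw [h4]
    calc 2 * (κ₀ * H) * (6 * C * H / δ * ∑ s ∈ B.image (fun P => sc P.1), 1 / (2 : ℝ) ^ s)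
        ≤ 2 * (κ₀ * H) * (6 * C * H / δ * (2 / (3 * C / (δ * C')))) := by gcongr
      _ = 8 * C' * κ₀ * H ^ 2 := by field_simp; ring
  have h9 : (Q.card : ℝ) ≤ A.card + B.card := by
    have := (card_le_card hcov).trans (card_union_le A B)
    exact_mod_cast this
  linarith

end Pool.Agent.H12.A3
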