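import Mathlib

/-! # [H12 A3 DD] divided differences of a real polynomial of bounded coefficients; roots near small values (AA3, helper12) -/

namespace Pool.Agent.H12.A3

open Finset

/-- the polynomial function with coefficients `a` -/
noncomputable def Fa (n : ℕ) (a : ℕ → ℝ) (t : ℝ) : ℝ := ∑ j ∈ range (n + 1), a j * t ^ j

/-- the divided difference -/
noncomputable def Da (n : ℕ) (a : ℕ → ℝ) (s t : ℝ) : ℝ := ∑ j ∈ range (n + 1), a j * ∑ i ∈ range j, s ^ i * t ^ (j - 1 - i)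

theorem Fa_sub (n : ℕ) (a : ℕ → ℝ) (s t : ℝ) : Fa n a s - Fa n a t = (s - t) * Da n a s t := by
  unfold Fa Da
  rw [← sum_sub_distrib, mul_sum]
  refine sum_congr rfl fun j _ => ?_
  have h := geom_sum₂_mul s t j
  calc a j * s ^ j - a j * t ^ j = a j * (s ^ j - t ^ j) := by ring
    _ = a j * ((∑ i ∈ range j, s ^ i * t ^ (j - 1 - i)) * (s - t)) := by rw [h]
    _ = _ := by ring

/-- Lipschitz constant -/
noncomputable def Lc (n : ℕ) : ℝ := ((n : ℝ) + 1) ^ 3 * 4 ^ n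

theorem Lc_pos (n : ℕ) : 1 ≤ Lc n := by
  unfold Lc
  have h1 : (1 : ℝ) ≤ ((n : ℝ) + 1) ^ 3 := one_le_pow₀ (by linarith [(Nat.cast_nonneg n : (0 : ℝ) ≤ n)])
  have h2 : (1 : ℝ) ≤ 4 ^ n := one_le_pow₀ (by norm_num)
  nlinarith

theorem pow_lip {s s' : ℝ} (hs : |s| ≤ 2) (hs' : |s'| ≤ 2) (i : ℕ) : |s ^ i - s' ^ i| ≤ i * 2 ^ i * |s - s'| := by
  rw [← geom_sum₂_mul, abs_mul]
  refine mul_le_mul_of_nonneg_right ?_ (abs_nonneg _)
  refine (abs_sum_le_sum_abs _ _).trans ?_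
  calc ∑ k ∈ range i, |s ^ k * s' ^ (i - 1 - k)| ≤ ∑ k ∈ range i, (2 : ℝ) ^ i := by
        refine sum_le_sum fun k hk => ?_
        have hk' := mem_range.1 hk
        rw [abs_mul, abs_pow, abs_pow]
        calc |s| ^ k * |s'| ^ (i - 1 - k) ≤ 2 ^ k * 2 ^ (i - 1 - k) :=
              mul_le_mul (pow_le_pow_left₀ (abs_nonneg _) hs _) (pow_le_pow_left₀ (abs_nonneg _) hs' _) (by positivity) (by positivity)
          _ = 2 ^ (i - 1) := by rw [← pow_add]; congr 1; omega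
          _ ≤ 2 ^ i := pow_le_pow_right₀ (by norm_num) (by omega)
    _ = i * 2 ^ i := by rw [sum_const, card_range, nsmul_eq_mul]

theorem Da_lip (n : ℕ) (a : ℕ → ℝ) {B : ℝ} (hB : 0 ≤ B) (ha : ∀ j ≤ n, |a j| ≤ B) {s s' t : ℝ} (hs : |s| ≤ 2) (hs' : |s'| ≤ 2) (ht : |t| ≤ 2) :
    |Da n a s t - Da n a s' t| ≤ B * Lc n * |s - s'| := by
  have hn0 : (0 : ℝ) ≤ n := Nat.cast_nonneg n
  unfold Da
  rw [← sum_sub_distrib]
  refine (abs_sum_le_sum_abs _ _).trans ?_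
  have h1 : ∀ j ∈ range (n + 1), |a j * ∑ i ∈ range j, s ^ i * t ^ (j - 1 - i) - a j * ∑ i ∈ range j, s' ^ i * t ^ (j - 1 - i)| ≤
      B * (((n : ℝ) + 1) ^ 2 * 4 ^ n) * |s - s'| := by
    intro j hj
    have hj' := mem_range.1 hj
    have hjn : (j : ℝ) ≤ n := by exact_mod_cast (by omega : j ≤ n)
    rw [← mul_sub, abs_mul, ← sum_sub_distrib]
    have h2 : |∑ i ∈ range j, (s ^ i * t ^ (j - 1 - i) - s' ^ i * t ^ (j - 1 - i))| ≤ (((n : ℝ) + 1) ^ 2 * 4 ^ n) * |s - s'| := by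
      refine (abs_sum_le_sum_abs _ _).trans ?_
      have h3 : ∀ i ∈ range j, |s ^ i * t ^ (j - 1 - i) - s' ^ i * t ^ (j - 1 - i)| ≤ (((n : ℝ) + 1) * 4 ^ n) * |s - s'| := by
        intro i hi
        have hi' := mem_range.1 hi
        have hin : (i : ℝ) ≤ n := by exact_mod_cast (by omega : i ≤ n)
        rw [← sub_mul, abs_mul, abs_pow]
        have h4 := pow_lip hs hs' i
        have h5 : |t| ^ (j - 1 - i) ≤ 2 ^ (j - 1 - i) := pow_le_pow_left₀ (abs_nonneg _) ht _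
        calc |s ^ i - s' ^ i| * |t| ^ (j - 1 - i) ≤ (i * 2 ^ i * |s - s'|) * 2 ^ (j - 1 - i) :=
              mul_le_mul h4 h5 (by positivity) (by positivity)
          _ = i * |s - s'| * (2 ^ i * 2 ^ (j - 1 - i)) := by ring
          _ ≤ (n + 1) * |s - s'| * 4 ^ n := by
              have h6 : (2 : ℝ) ^ i * 2 ^ (j - 1 - i) ≤ 4 ^ n := by
                rw [← pow_add]
                calc (2 : ℝ) ^ (i + (j - 1 - i)) ≤ 2 ^ (2 * n) := pow_le_pow_right₀ (by norm_num) (by omega)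
                  _ = 4 ^ n := by rw [pow_mul]; norm_num
              have h7 : (i : ℝ) ≤ n + 1 := by linarith
              gcongr
          _ = _ := by ring
      refine (sum_le_sum h3).trans ?_
      rw [sum_const, card_range, nsmul_eq_mul]
      calc (j : ℝ) * ((((n : ℝ) + 1) * 4 ^ n) * |s - s'|) ≤ ((n : ℝ) + 1) * ((((n : ℝ) + 1) * 4 ^ n) * |s - s'|) :=
            mul_le_mul_of_nonneg_right (by linarith) (by positivity)
        _ = _ := by ring
    calc |a j| * |∑ i ∈ range j, (s ^ i * t ^ (j - 1 - i) - s' ^ i * t ^ (j - 1 - i))| ≤ B * ((((n : ℝ) + 1) ^ 2 * 4 ^ n) * |s - s'|) :=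
          mul_le_mul (ha j (by omega)) h2 (abs_nonneg _) hB
      _ = _ := by ring
  refine (sum_le_sum h1).trans (le_of_eq ?_)
  rw [sum_const, card_range, nsmul_eq_mul]
  unfold Lc
  push_cast
  ring

theorem Da_symm (n : ℕ) (a : ℕ → ℝ) (s t : ℝ) : Da n a s t = Da n a t s := by
  unfold Da
  refine sum_congr rfl fun j _ => ?_
  congr 1
  rw [← sum_range_reflect]
  refine sum_congr rfl fun i hi => ?_
  have hi' := mem_range.1 hi
  have h1 : j - 1 - (j - 1 - i) = i := by omega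
  rw [h1, mul_comm]

theorem Da_diag (n : ℕ) (a : ℕ → ℝ) (t : ℝ) : Da n a t t = ∑ j ∈ range (n + 1), a j * (j * t ^ (j - 1)) := by
  unfold Da
  refine sum_congr rfl fun j _ => ?_
  congr 1
  have h1 : ∀ i ∈ range j, t ^ i * t ^ (j - 1 - i) = t ^ (j - 1) := by
    intro i hi
    have hi' := mem_range.1 hi
    rw [← pow_add]
    congr 1
    omega
  rw [sum_congr rfl h1, sum_const, card_range, nsmul_eq_mul]

theorem Fa_cont (n : ℕ) (a : ℕ → ℝ) : Continuous (Fa n a) := by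
  unfold Fa
  fun_prop

/-- the values of `Fa` are Lipschitz -/
theorem Fa_lip (n : ℕ) (a : ℕ → ℝ) {B : ℝ} (hB : 0 ≤ B) (ha : ∀ j ≤ n, |a j| ≤ B) {s s' : ℝ} (hs : |s| ≤ 2) (hs' : |s'| ≤ 2) :
    |Fa n a s - Fa n a s'| ≤ B * Lc n * |s - s'| := by
  have hn0 : (0 : ℝ) ≤ n := Nat.cast_nonneg n
  unfold Fa
  rw [← sum_sub_distrib]
  refine (abs_sum_le_sum_abs _ _).trans ?_
  have h1 : ∀ j ∈ range (n + 1), |a j * s ^ j - a j * s' ^ j| ≤ B * (((n : ℝ) + 1) ^ 2 * 4 ^ n) * |s - s'| := by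
    intro j hj
    have hj' := mem_range.1 hj
    have hjn : (j : ℝ) ≤ n := by exact_mod_cast (by omega : j ≤ n)
    rw [← mul_sub, abs_mul]
    have h4 := pow_lip hs hs' j
    have h6 : (2 : ℝ) ^ j ≤ 4 ^ n := by
      calc (2 : ℝ) ^ j ≤ 2 ^ (2 * n) := pow_le_pow_right₀ (by norm_num) (by omega)
        _ = 4 ^ n := by rw [pow_mul]; norm_num
    have h7 : (j : ℝ) ≤ ((n : ℝ) + 1) ^ 2 := by nlinarith
    calc |a j| * |s ^ j - s' ^ j| ≤ B * (j * 2 ^ j * |s - s'|) := mul_le_mul (ha j (by omega)) h4 (abs_nonneg _) hB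
      _ ≤ B * (((n : ℝ) + 1) ^ 2 * 4 ^ n * |s - s'|) := by gcongr
      _ = _ := by ring
  refine (sum_le_sum h1).trans (le_of_eq ?_)
  rw [sum_const, card_range, nsmul_eq_mul]
  unfold Lc
  push_cast
  ring

/-- a root near a point with small value and large derivative -/
theorem root_near (n : ℕ) (a : ℕ → ℝ) {B δ ε t : ℝ} (hB : 0 < B) (ha : ∀ j ≤ n, |a j| ≤ B) (ht : |t| ≤ 1) (hδ : 0 < δ)
    (hd : δ ≤ |Da n a t t|) (hε : 0 ≤ ε) (hv : |Fa n a t| ≤ ε) (hs : 2 * ε / δ ≤ 1) (hs' : B * Lc n * (2 * ε / δ) ≤ δ / 4) :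
    ∃ θ : ℝ, Fa n a θ = 0 ∧ |θ - t| ≤ 2 * ε / δ ∧ |θ| ≤ 2 ∧ δ / 2 ≤ |Da n a θ θ| := by
  obtain ⟨h, hh⟩ : ∃ h : ℝ, h = 2 * ε / δ := ⟨_, rfl⟩
  rw [← hh] at hs hs' ⊢
  have hh0 : 0 ≤ h := by rw [hh]; positivity
  have hhε : h * δ = 2 * ε := by rw [hh]; field_simp
  have hL := Lc_pos n
  have hBL : 0 ≤ B * Lc n := by positivity
  have hab := abs_le.1 ht
  have ht2 : |t| ≤ 2 := by linarith
  have near : ∀ θ : ℝ, |θ - t| ≤ h → |θ| ≤ 2 ∧ |Da n a θ t - Da n a t t| ≤ δ / 4 := by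
    intro θ hθ
    have h1 : |θ| ≤ 2 := by
      have := abs_le.1 hθ
      rw [abs_le]
      constructor <;> linarith
    refine ⟨h1, (Da_lip n a hB.le ha h1 ht2 ht2).trans (le_trans ?_ hs')⟩
    exact mul_le_mul_of_nonneg_left hθ hBL
  obtain ⟨hp1, hp2⟩ := near (t + h) (by rw [add_sub_cancel_left, abs_of_nonneg hh0])
  obtain ⟨hm1, hm2⟩ := near (t - h) (by rw [sub_sub_cancel_left, abs_neg, abs_of_nonneg hh0])
  have hFp := Fa_sub n a (t + h) t
  have hFm := Fa_sub n a (t - h) t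
  rw [add_sub_cancel_left] at hFp
  rw [sub_sub_cancel_left] at hFm
  have hv' := abs_le.1 hv
  have hp3 := abs_le.1 hp2
  have hm3 := abs_le.1 hm2
  have h0 : (0 : ℝ) ∈ Set.uIcc (Fa n a (t - h)) (Fa n a (t + h)) := by
    rw [Set.mem_uIcc]
    rcases le_abs.1 hd with h1 | h1
    · left
      have h2 : 3 * δ / 4 ≤ Da n a (t + h) t := by linarith
      have h3 : 3 * δ / 4 ≤ Da n a (t - h) t := by linarith
      have h4 := mul_le_mul_of_nonneg_left h2 hh0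
      have h5 := mul_le_mul_of_nonneg_left h3 hh0
      constructor <;> nlinarith
    · right
      have h2 : 3 * δ / 4 ≤ -Da n a (t + h) t := by linarith
      have h3 : 3 * δ / 4 ≤ -Da n a (t - h) t := by linarith
      have h4 := mul_le_mul_of_nonneg_left h2 hh0
      have h5 := mul_le_mul_of_nonneg_left h3 hh0
      constructor <;> nlinarith
  obtain ⟨θ, hθ, hθ0⟩ := intermediate_value_uIcc ((Fa_cont n a).continuousOn) h0
  have hθt : |θ - t| ≤ h := by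
    rw [Set.uIcc_of_le (by linarith)] at hθ
    rw [abs_le]
    constructor <;> linarith [hθ.1, hθ.2]
  obtain ⟨h1, h2⟩ := near θ hθt
  refine ⟨θ, hθ0, hθt, h1, ?_⟩
  have h3 : |Da n a θ θ - Da n a t θ| ≤ δ / 4 :=
    (Da_lip n a hB.le ha h1 ht2 h1).trans ((mul_le_mul_of_nonneg_left hθt hBL).trans hs')
  rw [Da_symm n a t θ] at h3
  have h4 : |Da n a t t| ≤ |Da n a θ θ| + (|Da n a θ θ - Da n a θ t| + |Da n a θ t - Da n a t t|) := by
    have h5 : Da n a t t = Da n a θ θ - (Da n a θ θ - Da n a θ t) - (Da n a θ t - Da n a t t) := by ring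
    calc |Da n a t t| = |Da n a θ θ - (Da n a θ θ - Da n a θ t) - (Da n a θ t - Da n a t t)| := by rw [← h5]
      _ ≤ |Da n a θ θ - (Da n a θ θ - Da n a θ t)| + |Da n a θ t - Da n a t t| := abs_sub _ _
      _ ≤ (|Da n a θ θ| + |Da n a θ θ - Da n a θ t|) + |Da n a θ t - Da n a t t| := by
          gcongr
          exact abs_sub _ _
      _ = _ := by ring
  linarith

end Pool.Agent.H12.A3
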