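import Mathlib

/-! # [H12 A3 DIR] the direction of a heavy window (AA3, helper12) -/

namespace Pool.Agent.H12.A3

open Finset

/-- many collinear integer points in a thin box have a short direction vector, close to the slope `θ` -/
theorem dirv (W : Finset (ℤ × ℤ)) (R : ℕ) (hR : 1 ≤ R) (hW : R < W.card) (θ w ζ : ℝ) (hζ : ζ < 1)
    (hcol : ∀ P ∈ W, ∀ Q ∈ W, ∀ S ∈ W, (Q.1 - P.1) * (S.2 - P.2) = (S.1 - P.1) * (Q.2 - P.2))
    (hx : ∀ P ∈ W, ∀ Q ∈ W, |(P.1 : ℝ) - Q.1| ≤ w)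
    (hz : ∀ P ∈ W, ∀ Q ∈ W, |((P.2 : ℝ) - θ * P.1) - (Q.2 - θ * Q.1)| ≤ ζ) :
    ∃ v : ℤ × ℤ, IsCoprime v.1 v.2 ∧ v.1 ≠ 0 ∧ |(v.1 : ℝ)| * R ≤ w ∧ |(v.2 : ℝ) - θ * v.1| * R ≤ ζ := by
  classical
  obtain ⟨P0, hP0, P1, hP1, hne⟩ := one_lt_card.1 (by omega : 1 < W.card)
  have hab : P1.1 - P0.1 ≠ 0 ∨ P1.2 - P0.2 ≠ 0 := by
    by_contra hcon
    push Not at hcon
    apply hne
    ext
    · linarith [hcon.1]
    · linarith [hcon.2]
  have hg : 0 < Int.gcd (P1.1 - P0.1) (P1.2 - P0.2) := Int.gcd_pos_iff.2 hab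
  obtain ⟨v1, v2, hv, ha, hb⟩ := Int.exists_gcd_one hg
  obtain ⟨g, hgeq⟩ : ∃ g : ℤ, g = (Int.gcd (P1.1 - P0.1) (P1.2 - P0.2) : ℤ) := ⟨_, rfl⟩
  have hg0 : g ≠ 0 := by
    rw [hgeq]
    exact_mod_cast hg.ne'
  rw [← hgeq] at ha hb
  have hcop : IsCoprime v1 v2 := Int.isCoprime_iff_gcd_eq_one.2 hv
  have hv1 : v1 ≠ 0 := by
    intro h0
    rw [h0, zero_mul] at ha
    have h1 := hz P1 hP1 P0 hP0
    have h2 : ((P1.1 : ℤ) : ℝ) = P0.1 := by
      have : P1.1 = P0.1 := by linarith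
      rw [this]
    have h3 : ((P1.2 : ℝ) - θ * P1.1) - (P0.2 - θ * P0.1) = ((P1.2 - P0.2 : ℤ) : ℝ) := by
      rw [h2]
      push_cast
      ring
    rw [h3] at h1
    have h4 : P1.2 - P0.2 ≠ 0 := by
      rcases hab with h | h
      · exact absurd ha h
      · exact h
    have h5 : (1 : ℝ) ≤ |((P1.2 - P0.2 : ℤ) : ℝ)| := by
      have := Int.one_le_abs h4
      have h6 : ((1 : ℤ) : ℝ) ≤ ((|P1.2 - P0.2| : ℤ) : ℝ) := by exact_mod_cast this
      rw [Int.cast_abs] at h6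
      simpa using h6
    linarith
  have hk : ∀ Q : ℤ × ℤ, ∃ k : ℤ, Q ∈ W → Q.1 - P0.1 = v1 * k ∧ Q.2 - P0.2 = v2 * k := by
    intro Q
    by_cases hQ : Q ∈ W
    · have h1 := hcol P0 hP0 Q hQ P1 hP1
      rw [ha, hb] at h1
      have h2 : (Q.1 - P0.1) * v2 = v1 * (Q.2 - P0.2) := by
        have : ((Q.1 - P0.1) * v2) * g = (v1 * (Q.2 - P0.2)) * g := by linarith
        exact mul_right_cancel₀ hg0 this
      have h3 : v1 ∣ (Q.1 - P0.1) * v2 := ⟨_, h2⟩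
      obtain ⟨k, hk⟩ := hcop.dvd_of_dvd_mul_right h3
      refine ⟨k, fun _ => ⟨hk, ?_⟩⟩
      rw [hk] at h2
      have : v1 * (Q.2 - P0.2) = v1 * (v2 * k) := by linarith
      exact mul_left_cancel₀ hv1 this
    · exact ⟨0, fun h => absurd h hQ⟩
  choose k hk using hk
  have hinj : Set.InjOn k (W : Set (ℤ × ℤ)) := by
    intro Q hQ Q' hQ' h
    obtain ⟨h1, h2⟩ := hk Q hQ
    obtain ⟨h3, h4⟩ := hk Q' hQ'
    rw [h] at h1 h2
    ext
    · linarith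
    · linarith
  have hcard : (W.image k).card = W.card := card_image_of_injOn hinj
  have hne' : (W.image k).Nonempty := ⟨k P0, mem_image_of_mem k hP0⟩
  obtain ⟨Q, hQ, hQk⟩ := mem_image.1 ((W.image k).max'_mem hne')
  obtain ⟨Q', hQ', hQk'⟩ := mem_image.1 ((W.image k).min'_mem hne')
  have hRk : (R : ℤ) ≤ k Q - k Q' := by
    have h1 : W.image k ⊆ Icc (k Q') (k Q) := by
      intro a ha'
      rw [mem_Icc, hQk, hQk']
      exact ⟨min'_le _ _ ha', le_max' _ _ ha'⟩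
    have h2 := card_le_card h1
    rw [Int.card_Icc, hcard] at h2
    omega
  have hRk' : (R : ℝ) ≤ (k Q - k Q' : ℤ) := by exact_mod_cast hRk
  have hR0 : (0 : ℝ) ≤ ((k Q - k Q' : ℤ) : ℝ) := le_trans (Nat.cast_nonneg _) hRk'
  obtain ⟨h1, h2⟩ := hk Q hQ
  obtain ⟨h3, h4⟩ := hk Q' hQ'
  have e1 : (Q.1 : ℝ) - Q'.1 = v1 * ((k Q - k Q' : ℤ) : ℝ) := by
    have : Q.1 - Q'.1 = v1 * (k Q - k Q') := by linear_combination h1 - h3
    exact_mod_cast this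
  have e2 : (Q.2 : ℝ) - Q'.2 = v2 * ((k Q - k Q' : ℤ) : ℝ) := by
    have : Q.2 - Q'.2 = v2 * (k Q - k Q') := by linear_combination h2 - h4
    exact_mod_cast this
  refine ⟨(v1, v2), hcop, hv1, ?_, ?_⟩
  · have h5 := hx Q hQ Q' hQ'
    rw [e1, abs_mul, abs_of_nonneg hR0] at h5
    exact (mul_le_mul_of_nonneg_left hRk' (abs_nonneg _)).trans h5
  · have h5 := hz Q hQ Q' hQ'
    have h6 : ((Q.2 : ℝ) - θ * Q.1) - (Q'.2 - θ * Q'.1) = (v2 - θ * v1) * ((k Q - k Q' : ℤ) : ℝ) := by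
      linear_combination e2 - θ * e1
    rw [h6, abs_mul, abs_of_nonneg hR0] at h5
    exact (mul_le_mul_of_nonneg_left hRk' (abs_nonneg _)).trans h5

/-- parallel primitive vectors -/
theorem par {v w : ℤ × ℤ} (hv : IsCoprime v.1 v.2) (hw : IsCoprime w.1 w.2) (hv0 : v.1 ≠ 0) (h : v.1 * w.2 = w.1 * v.2) :
    w = v ∨ w = -v := by
  have h1 : v.1 ∣ w.1 := by
    have : v.1 ∣ w.1 * v.2 := ⟨w.2, by linarith⟩
    exact hv.dvd_of_dvd_mul_right this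
  have h2 : w.1 ∣ v.1 := by
    have : w.1 ∣ v.1 * w.2 := ⟨v.2, h⟩
    exact hw.dvd_of_dvd_mul_right this
  rcases Int.associated_iff.1 (associated_of_dvd_dvd h1 h2) with h3 | h3
  · left
    rw [← h3] at h
    have : w.2 = v.2 := mul_left_cancel₀ hv0 h
    ext
    · exact h3.symm
    · exact this
  · right
    have h4 : w.1 = -v.1 := by linarith
    rw [h4] at h
    have : w.2 = -v.2 := by
      have : v.1 * w.2 = v.1 * (-v.2) := by linarith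
      exact mul_left_cancel₀ hv0 this
    ext
    · exact h4
    · exact this

end Pool.Agent.H12.A3
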