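import Pool.Agent.H12.A3.Itp
import Pool.Agent.H88.A2.Cls

/-! # [H12 A3 HVL] a line carries fewer than `n` small values far out (AA3, helper12) -/

namespace Pool.Agent.H12.A3

open Finset Polynomial Pool.Agent.H8.AA Pool.Agent.H88.A2

/-- the restriction of `F` to a line, with real parameter -/
theorem restrR (n : ℕ) (e : ℕ → ℕ → ℤ) (a b v w : ℤ) : ∃ Q : ℤ[X], Q.natDegree ≤ n ∧
    Q.coeff n = ∑ j ∈ range (n + 1), e (n - j) j * (v ^ (n - j) * w ^ j) ∧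
    (∀ k : ℤ, Q.eval k = ev n e (a + v * k) (b + w * k)) ∧
    ∀ t : ℝ, aeval t Q = ∑ k ∈ range (n + 1), ∑ j ∈ range (k + 1),
      (e (k - j) j : ℝ) * ((a + v * t) ^ (k - j) * (b + w * t) ^ j) := by
  obtain ⟨Q, hQ⟩ : ∃ Q : ℤ[X], Q = ∑ k ∈ Finset.range (n + 1), ∑ j ∈ Finset.range (k + 1),
      C (e (k - j) j) * ((C a + C v * X) ^ (k - j) * (C b + C w * X) ^ j) := ⟨_, rfl⟩
  have hterm : ∀ k ∈ Finset.range (n + 1), ∀ j ∈ Finset.range (k + 1),
      (C (e (k - j) j) * ((C a + C v * X : ℤ[X]) ^ (k - j) * (C b + C w * X) ^ j)).natDegree ≤ k := by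
    intro k _ j hj
    have hj' := Finset.mem_range.1 hj
    refine (natDegree_C_mul_le _ _).trans ((Pool.Agent.H14.AA.mono_deg a b v w _ _).trans ?_)
    omega
  have hle : Q.natDegree ≤ n := by
    rw [hQ]
    refine natDegree_sum_le_of_forall_le _ _ fun k hk => natDegree_sum_le_of_forall_le _ _ fun j hj => ?_
    have hk' := Finset.mem_range.1 hk
    exact (hterm k hk j hj).trans (by omega)
  have hco : Q.coeff n = ∑ j ∈ Finset.range (n + 1), e (n - j) j * (v ^ (n - j) * w ^ j) := by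
    rw [hQ, finsetSum_coeff, Finset.sum_eq_single n]
    · rw [finsetSum_coeff]
      refine Finset.sum_congr rfl fun j hj => ?_
      have hj' := Finset.mem_range.1 hj
      have h1 := Pool.Agent.H14.AA.mono_coeff a b v w (n - j) j
      rw [Nat.sub_add_cancel (by omega)] at h1
      rw [coeff_C_mul, h1]
    · intro k hk hkn
      have hk' := Finset.mem_range.1 hk
      rw [finsetSum_coeff]
      refine Finset.sum_eq_zero fun j hj => ?_
      exact coeff_eq_zero_of_natDegree_lt (lt_of_le_of_lt (hterm k hk j hj) (by omega))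
    · intro hn'
      exact absurd (Finset.mem_range.2 (by omega)) hn'
  refine ⟨Q, hle, hco, ?_, ?_⟩
  · intro k
    rw [hQ]
    unfold ev
    rw [eval_finsetSum]
    refine Finset.sum_congr rfl fun i _ => ?_
    rw [eval_finsetSum]
    refine Finset.sum_congr rfl fun j _ => ?_
    simp
  · intro t
    rw [hQ, map_sum]
    refine Finset.sum_congr rfl fun i _ => ?_
    rw [map_sum]
    refine Finset.sum_congr rfl fun j _ => ?_
    simp

/-- the value at a real point of the `y`-axis at most `C₀ H` -/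
theorem axis_le (n H : ℕ) (hH : 1 ≤ H) (B C₀ : ℝ) (hB : 0 ≤ B) (hC : 1 ≤ C₀) (e : ℕ → ℕ → ℤ)
    (ht : |(e 0 n : ℝ)| ≤ B) (hl : ∀ b < n, |(e 0 b : ℝ)| ≤ B * H) (y : ℝ) (hy : |y| ≤ C₀ * H) :
    |∑ k ∈ range (n + 1), ∑ j ∈ range (k + 1), (e (k - j) j : ℝ) * ((0 : ℝ) ^ (k - j) * y ^ j)| ≤
      (n + 1) * (B * C₀ ^ n) * (H : ℝ) ^ n := by
  have hH' : (1 : ℝ) ≤ (H : ℝ) := by exact_mod_cast hH
  have hH0 : (0 : ℝ) < (H : ℝ) := by linarith
  have h1 : ∀ k ∈ range (n + 1), ∑ j ∈ range (k + 1), (e (k - j) j : ℝ) * ((0 : ℝ) ^ (k - j) * y ^ j) = (e 0 k : ℝ) * y ^ k := by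
    intro k _
    rw [sum_eq_single k]
    · simp
    · intro j hj hjk
      have hj' := mem_range.1 hj
      rw [zero_pow (by omega)]
      ring
    · intro hk
      exact absurd (mem_range.2 (Nat.lt_succ_self k)) hk
  rw [sum_congr rfl h1]
  refine (abs_sum_le_sum_abs _ _).trans ?_
  have h2 : ∀ k ∈ range (n + 1), |(e 0 k : ℝ) * y ^ k| ≤ (B * C₀ ^ n) * (H : ℝ) ^ n := by
    intro k hk
    have hk' := mem_range.1 hk
    rw [abs_mul, abs_pow]
    have h3 : |y| ^ k ≤ (C₀ * H) ^ k := pow_le_pow_left₀ (abs_nonneg _) hy k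
    have h4 : C₀ ^ k ≤ C₀ ^ n := pow_le_pow_right₀ hC (by omega)
    rcases Nat.lt_or_ge k n with h5 | h5
    · have h6 : (H : ℝ) * (H : ℝ) ^ k ≤ (H : ℝ) ^ n := by
        rw [← pow_succ']
        exact pow_le_pow_right₀ hH' (by omega)
      calc |(e 0 k : ℝ)| * |y| ^ k ≤ (B * H) * (C₀ * H) ^ k :=
            mul_le_mul (hl k h5) h3 (by positivity) (by positivity)
        _ = (B * C₀ ^ k) * ((H : ℝ) * (H : ℝ) ^ k) := by rw [mul_pow]; ring
        _ ≤ (B * C₀ ^ n) * (H : ℝ) ^ n := by gcongr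
    · have h7 : k = n := by omega
      subst h7
      calc |(e 0 k : ℝ)| * |y| ^ k ≤ B * (C₀ * H) ^ k := mul_le_mul ht h3 (by positivity) hB
        _ = _ := by rw [mul_pow]; ring
  refine (sum_le_sum h2).trans ?_
  rw [sum_const, card_range, nsmul_eq_mul]
  push_cast
  exact le_of_eq (by ring)

/-- heavy line lemma: a line close to a branch carries fewer than `n` integer points with value at most `H` far out -/
theorem hvl (n : ℕ) (B C₀ : ℝ) (hB : 0 ≤ B) (hC : 1 ≤ C₀) : ∃ R₀ : ℝ, 1 ≤ R₀ ∧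
    ∀ (e : ℕ → ℕ → ℤ) (H : ℕ), 1 ≤ H → |(e 0 n : ℝ)| ≤ B → (∀ b < n, |(e 0 b : ℝ)| ≤ B * H) → Nz n e →
    ∀ (p q v w : ℤ), v ≠ 0 → ∀ R : ℝ, R₀ ≤ R → ∀ s : Finset ℤ,
    (∀ k ∈ s, H * R * |(v : ℝ)| ≤ |((p + v * k : ℤ) : ℝ)| ∧ |ev n e (p + v * k) (q + w * k)| ≤ (H : ℤ)) →
    |(q : ℝ) - w * p / v| ≤ C₀ * H → s.card < n ∨ n = 0 := by
  obtain ⟨R₀, hR₀⟩ : ∃ R₀ : ℝ, R₀ = 1 + 4 * n + 4 * ((n + 1) * (B * C₀ ^ n)) := ⟨_, rfl⟩
  have hK0 : 0 ≤ ((n : ℝ) + 1) * (B * C₀ ^ n) := by positivity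
  have hn0 : (0 : ℝ) ≤ n := Nat.cast_nonneg n
  refine ⟨R₀, by rw [hR₀]; linarith, ?_⟩
  intro e H hH ht hl hz p q v w hv R hR s hs hy
  by_contra hcon
  push Not at hcon
  obtain ⟨hcard, hn⟩ := hcon
  obtain ⟨s', hs', hs'c⟩ := exists_subset_card_eq hcard
  have hH' : (1 : ℝ) ≤ (H : ℝ) := by exact_mod_cast hH
  have hH0 : (0 : ℝ) < (H : ℝ) := by linarith
  have hR1 : 1 ≤ R := by rw [hR₀] at hR; linarith
  have hv' : (v : ℝ) ≠ 0 := by exact_mod_cast hv
  have hv0 : 0 < |(v : ℝ)| := abs_pos.2 hv'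
  obtain ⟨Q, hQd, hQc, hQe, hQr⟩ := restrR n e p q v w
  have h0 : (1 : ℝ) ≤ |(Q.map (Int.castRingHom ℝ)).coeff n| := by
    rw [coeff_map, hQc]
    have h1 := hz v w (Or.inl hv)
    have h2 := Int.one_le_abs h1
    have h3 : ((1 : ℤ) : ℝ) ≤ ((|∑ j ∈ range (n + 1), e (n - j) j * (v ^ (n - j) * w ^ j)| : ℤ) : ℝ) := by exact_mod_cast h2
    rw [Int.cast_abs] at h3
    simpa using h3
  have key := itp n (Q.map (Int.castRingHom ℝ)) (natDegree_map_le.trans hQd) s' hs'c (-(p : ℝ) / v) (H * R) H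
    ((n + 1) * (B * C₀ ^ n) * (H : ℝ) ^ n) (by positivity) hH0.le ?_ ?_ ?_
  · have h4 : (n : ℝ) * H / (H * R) ≤ 1 / 4 := by
      rw [div_le_iff₀ (by positivity)]
      have : 4 * (n : ℝ) ≤ R := by rw [hR₀] at hR; linarith
      nlinarith
    have h5 : (n + 1) * (B * C₀ ^ n) * (H : ℝ) ^ n / (H * R) ^ n ≤ 1 / 4 := by
      rw [mul_pow, div_le_iff₀ (by positivity)]
      have h6 : 4 * (((n : ℝ) + 1) * (B * C₀ ^ n)) ≤ R := by rw [hR₀] at hR; linarith
      have h7 : R ≤ R ^ n := le_self_pow₀ hR1 hn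
      have h8 : (0 : ℝ) < (H : ℝ) ^ n := by positivity
      nlinarith [mul_le_mul_of_nonneg_right (h6.trans h7) h8.le]
    linarith
  · intro k hk
    have h1 := (hs k (hs' hk)).1
    push_cast at h1
    have h2 : (k : ℝ) - -(p : ℝ) / v = (p + v * k) / v := by
      field_simp
      ring
    rw [h2, abs_div, le_div_iff₀ hv0]
    exact h1
  · intro k hk
    have h1 := (hs k (hs' hk)).2
    have h2 : (Q.map (Int.castRingHom ℝ)).eval (k : ℝ) = ((Q.eval k : ℤ) : ℝ) := by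
      rw [eval_intCast_map]
      simp
    rw [h2, hQe]
    exact_mod_cast h1
  · have h1 : (Q.map (Int.castRingHom ℝ)).eval (-(p : ℝ) / v) = aeval (-(p : ℝ) / v) Q := by
      rw [aeval_def, eval_map]
      rfl
    rw [h1, hQr]
    have h2 : (p : ℝ) + v * (-(p : ℝ) / v) = 0 := by
      field_simp
      ring
    have h3 : (q : ℝ) + w * (-(p : ℝ) / v) = q - w * p / v := by ring
    rw [h2, h3]
    exact axis_le n H hH B C₀ hB hC e ht hl _ hy

end Pool.Agent.H12.A3
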