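import Mathlib

/-! # [H12 A3 ITP] interpolation at `n` distinct integers and one distant real number (AA3, heavy line lemma, helper12) -/

namespace Pool.Agent.H12.A3

open Finset Polynomial

/-- Lagrange: the coefficient at `n` of a polynomial of degree at most `n`, small at `n` integers, controlled at `k₀` far from them -/
theorem itp (n : ℕ) (g : ℝ[X]) (hg : g.natDegree ≤ n) (s : Finset ℤ) (hs : s.card = n) (k₀ D H T : ℝ)
    (hD : 0 < D) (hH : 0 ≤ H) (hk : ∀ k ∈ s, D ≤ |(k : ℝ) - k₀|) (hgk : ∀ k ∈ s, |g.eval (k : ℝ)| ≤ H)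
    (hg0 : |g.eval k₀| ≤ T) : |g.coeff n| ≤ n * H / D + T / D ^ n := by
  classical
  obtain ⟨v, hv⟩ : ∃ v : Option ℤ → ℝ, v = fun o => o.elim k₀ (fun k => (k : ℝ)) := ⟨_, rfl⟩
  have hv0 : v none = k₀ := by rw [hv]; rfl
  have hv1 : ∀ k : ℤ, v (some k) = k := fun k => by rw [hv]; rfl
  have hcard : (insertNone s).card = n + 1 := by rw [card_insertNone, hs]
  have hne : ∀ k ∈ s, (k : ℝ) ≠ k₀ := by
    intro k hks h
    have := hk k hks
    rw [h, sub_self, abs_zero] at this
    linarith
  have hvs : Set.InjOn v (insertNone s : Finset (Option ℤ)) := by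
    intro a ha b hb hab
    rcases a with _ | a <;> rcases b with _ | b
    · rfl
    · rw [hv0, hv1] at hab
      exact absurd hab.symm (hne b (by simpa using hb))
    · rw [hv0, hv1] at hab
      exact absurd hab (hne a (by simpa using ha))
    · rw [hv1, hv1] at hab
      rw [Int.cast_injective hab]
  have hdeg : g.degree < (insertNone s).card := by
    rw [hcard]
    exact lt_of_le_of_lt (natDegree_le_iff_degree_le.1 hg) (by exact_mod_cast Nat.lt_succ_self n)
  have hsum := Lagrange.coeff_eq_sum hvs hdeg
  rw [hcard, Nat.add_sub_cancel] at hsum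
  rw [hsum]
  have hn1 : insertNone s = insert none (s.map Function.Embedding.some) := by
    ext o
    rcases o with _ | k <;> simp
  have hnot : (none : Option ℤ) ∉ s.map Function.Embedding.some := by simp
  have h0 : |g.eval (v none) / ∏ j ∈ (insertNone s).erase none, (v none - v j)| ≤ T / D ^ n := by
    have h1 : (insertNone s).erase none = s.map Function.Embedding.some := by
      rw [hn1, erase_insert hnot]
    rw [h1, prod_map, abs_div, abs_prod]
    have h2 : D ^ n ≤ ∏ i ∈ s, |v none - v (Function.Embedding.some i)| := by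
      rw [← hs, ← prod_const]
      refine prod_le_prod (fun _ _ => hD.le) fun k hks => ?_
      show D ≤ |v none - v (some k)|
      rw [hv0, hv1, abs_sub_comm]
      exact hk k hks
    have hT : 0 ≤ T := (abs_nonneg _).trans hg0
    rw [hv0] at *
    exact div_le_div₀ hT hg0 (by positivity) h2
  have h1 : ∀ k ∈ s, |g.eval (v (some k)) / ∏ j ∈ (insertNone s).erase (some k), (v (some k) - v j)| ≤ H / D := by
    intro k hks
    have h2 : none ∈ (insertNone s).erase (some k) := by simp
    rw [← mul_prod_erase _ _ h2, abs_div, abs_mul, abs_prod]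
    have h3 : 1 ≤ ∏ j ∈ ((insertNone s).erase (some k)).erase none, |v (some k) - v j| := by
      rw [← prod_const_one (s := ((insertNone s).erase (some k)).erase none)]
      refine prod_le_prod (fun _ _ => zero_le_one) fun o ho => ?_
      rcases o with _ | k'
      · simp at ho
      · rw [hv1, hv1]
        have h6 : k' ≠ k := by
          intro h7
          rw [h7] at ho
          simp at ho
        have h7 : (1 : ℤ) ≤ |k - k'| := Int.one_le_abs (sub_ne_zero.2 h6.symm)
        have h8 : ((1 : ℤ) : ℝ) ≤ ((|k - k'| : ℤ) : ℝ) := by exact_mod_cast h7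
        push_cast at h8
        exact h8
    have h4 : D ≤ |v (some k) - v none| := by
      rw [hv0, hv1]
      exact hk k hks
    have h5 : D ≤ |v (some k) - v none| * ∏ j ∈ ((insertNone s).erase (some k)).erase none, |v (some k) - v j| := by
      calc D = D * 1 := (mul_one D).symm
        _ ≤ _ := mul_le_mul h4 h3 zero_le_one (hD.le.trans h4)
    refine div_le_div₀ hH ?_ hD h5
    rw [hv1]
    exact hgk k hks
  rw [hn1, sum_insert hnot, sum_map, ← hn1]
  refine (abs_add_le _ _).trans ?_
  have h2 : |∑ x ∈ s, g.eval (v (Function.Embedding.some x)) /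
      ∏ j ∈ (insertNone s).erase (Function.Embedding.some x), (v (Function.Embedding.some x) - v j)| ≤ n * H / D := by
    refine (abs_sum_le_sum_abs _ _).trans ((sum_le_sum h1).trans ?_)
    rw [sum_const, hs, nsmul_eq_mul, mul_div_assoc]
  linarith

end Pool.Agent.H12.A3
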