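import Pool.Agent.H12.A3.Dir
import Pool.Agent.H12.A3.Hvl

/-! # [H12 A3 WIN] heavy windows (AA3, helper12) -/

namespace Pool.Agent.H12.A3

open Finset Polynomial Pool.Agent.H8.AA Pool.Agent.H88.A2

/-- the difference bound (N) for two points -/
def Nd (θ C : ℝ) (H : ℕ) (P Q : ℤ × ℤ) : Prop :=
  |((P.2 : ℝ) - θ * P.1) - (Q.2 - θ * Q.1)| ≤ C * (H ^ 2 * |1 / (P.1 : ℝ) - 1 / Q.1| + H * (1 / |(P.1 : ℝ)| + 1 / |(Q.1 : ℝ)|))

theorem Nd.symm {θ C : ℝ} {H : ℕ} {P Q : ℤ × ℤ} (h : Nd θ C H P Q) : Nd θ C H Q P := by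
  unfold Nd at h ⊢
  rw [abs_sub_comm, abs_sub_comm (1 / (Q.1 : ℝ)), add_comm (1 / |(Q.1 : ℝ)|)]
  exact h

/-- a heavy window has a direction -/
theorem win (C K κ₀ θ X : ℝ) (H R : ℕ) (W : Finset (ℤ × ℤ)) (hH : 1 ≤ H) (hC : 1 ≤ C) (hK : 6 * C < K) (hκ : 6 * C < κ₀)
    (h1 : ∀ P ∈ W, K * H ≤ |(P.1 : ℝ)|) (h2 : ∀ P ∈ W, ∀ Q ∈ W, Nd θ C H P Q)
    (hX : 0 < X) (h3 : ∀ P ∈ W, X ≤ |(P.1 : ℝ)| ∧ |(P.1 : ℝ)| ≤ 2 * X) (h4 : ∀ P ∈ W, ∀ Q ∈ W, 0 < P.1 * Q.1)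
    (h5 : ∀ P ∈ W, ∀ Q ∈ W, |(P.1 : ℝ) - Q.1| ≤ X / (κ₀ * H)) (hR : 1 ≤ R) (hW : R < W.card) :
    ∃ v : ℤ × ℤ, IsCoprime v.1 v.2 ∧ v.1 ≠ 0 ∧ |(v.1 : ℝ)| * R * (κ₀ * H) ≤ X ∧ |(v.2 : ℝ) - θ * v.1| * R * X ≤ 3 * C * H := by
  have hH' : (1 : ℝ) ≤ (H : ℝ) := by exact_mod_cast hH
  have hH0 : (0 : ℝ) < (H : ℝ) := by linarith
  have hκ0 : 0 < κ₀ := by linarith
  have hκ1 : 1 ≤ κ₀ := by linarith
  have hκH : 0 < κ₀ * H := by positivity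
  -- the difference of the heights
  have hz : ∀ P ∈ W, ∀ Q ∈ W, |((P.2 : ℝ) - θ * P.1) - (Q.2 - θ * Q.1)| ≤ 3 * C * H / X := by
    intro P hP Q hQ
    have hp := (h3 P hP).1
    have hq := (h3 Q hQ).1
    have hp0 : 0 < |(P.1 : ℝ)| := by linarith
    have hq0 : 0 < |(Q.1 : ℝ)| := by linarith
    have hp' : (P.1 : ℝ) ≠ 0 := abs_pos.1 hp0
    have hq' : (Q.1 : ℝ) ≠ 0 := abs_pos.1 hq0
    have g1 : |1 / (P.1 : ℝ) - 1 / Q.1| ≤ 1 / (H * X) := by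
      have e1 : 1 / (P.1 : ℝ) - 1 / Q.1 = (Q.1 - P.1) / (P.1 * Q.1) := by field_simp
      rw [e1, abs_div, abs_mul, div_le_div_iff₀ (by positivity) (by positivity), abs_sub_comm, one_mul]
      have g2 := h5 P hP Q hQ
      have g3 : |(P.1 : ℝ) - Q.1| * (H * X) ≤ X / (κ₀ * H) * (H * X) := mul_le_mul_of_nonneg_right g2 (by positivity)
      have g4 : X / (κ₀ * H) * (H * X) = X * X / κ₀ := by field_simp
      have g5 : X * X / κ₀ ≤ X * X := div_le_self (by positivity) hκ1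
      have g6 : X * X ≤ |(P.1 : ℝ)| * |(Q.1 : ℝ)| := mul_le_mul hp hq hX.le hp0.le
      linarith
    have g7 : 1 / |(P.1 : ℝ)| ≤ 1 / X := one_div_le_one_div_of_le hX hp
    have g8 : 1 / |(Q.1 : ℝ)| ≤ 1 / X := one_div_le_one_div_of_le hX hq
    refine (h2 P hP Q hQ).trans ?_
    have g9 : (H : ℝ) ^ 2 * |1 / (P.1 : ℝ) - 1 / Q.1| + H * (1 / |(P.1 : ℝ)| + 1 / |(Q.1 : ℝ)|) ≤ 3 * H / X := by
      calc (H : ℝ) ^ 2 * |1 / (P.1 : ℝ) - 1 / Q.1| + H * (1 / |(P.1 : ℝ)| + 1 / |(Q.1 : ℝ)|)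
          ≤ (H : ℝ) ^ 2 * (1 / (H * X)) + H * (1 / X + 1 / X) := by gcongr
        _ = 3 * H / X := by field_simp; ring
    calc C * ((H : ℝ) ^ 2 * |1 / (P.1 : ℝ) - 1 / Q.1| + H * (1 / |(P.1 : ℝ)| + 1 / |(Q.1 : ℝ)|)) ≤ C * (3 * H / X) :=
          mul_le_mul_of_nonneg_left g9 (by linarith)
      _ = _ := by ring
  -- collinear
  have hcol : ∀ P ∈ W, ∀ Q ∈ W, ∀ S ∈ W, (Q.1 - P.1) * (S.2 - P.2) = (S.1 - P.1) * (Q.2 - P.2) := by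
    intro P hP Q hQ S hS
    have e1 : (((Q.1 - P.1) * (S.2 - P.2) - (S.1 - P.1) * (Q.2 - P.2) : ℤ) : ℝ) =
        ((Q.1 : ℝ) - P.1) * (((S.2 : ℝ) - θ * S.1) - (P.2 - θ * P.1)) - ((S.1 : ℝ) - P.1) * (((Q.2 : ℝ) - θ * Q.1) - (P.2 - θ * P.1)) := by
      push_cast
      ring
    have b1 : |((Q.1 : ℝ) - P.1) * (((S.2 : ℝ) - θ * S.1) - (P.2 - θ * P.1))| ≤ X / (κ₀ * H) * (3 * C * H / X) := by
      rw [abs_mul]
      exact mul_le_mul (h5 Q hQ P hP) (hz S hS P hP) (abs_nonneg _) (by positivity)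
    have b2 : |((S.1 : ℝ) - P.1) * (((Q.2 : ℝ) - θ * Q.1) - (P.2 - θ * P.1))| ≤ X / (κ₀ * H) * (3 * C * H / X) := by
      rw [abs_mul]
      exact mul_le_mul (h5 S hS P hP) (hz Q hQ P hP) (abs_nonneg _) (by positivity)
    have e2 : X / (κ₀ * H) * (3 * C * H / X) = 3 * C / κ₀ := by field_simp
    have b3 : 3 * C / κ₀ < 1 / 2 := by
      rw [div_lt_div_iff₀ hκ0 (by norm_num)]
      linarith
    rw [e2] at b1 b2
    have b4 : |(((Q.1 - P.1) * (S.2 - P.2) - (S.1 - P.1) * (Q.2 - P.2) : ℤ) : ℝ)| < 1 := by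
      rw [e1]
      refine lt_of_le_of_lt (abs_sub _ _) ?_
      linarith
    have b5 : |((Q.1 - P.1) * (S.2 - P.2) - (S.1 - P.1) * (Q.2 - P.2) : ℤ)| < 1 := by
      rw [← Int.cast_abs] at b4
      exact_mod_cast b4
    have := Int.abs_lt_one_iff.1 b5
    linarith
  have hζ : 3 * C * H / X < 1 := by
    obtain ⟨P, hP⟩ : W.Nonempty := card_pos.1 (by omega)
    have g1 := h1 P hP
    have g2 := (h3 P hP).2
    rw [div_lt_one hX]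
    have g3 : 6 * C * H < K * H := mul_lt_mul_of_pos_right hK hH0
    linarith
  obtain ⟨v, hv1, hv2, hv3, hv4⟩ := dirv W R hR hW θ (X / (κ₀ * H)) (3 * C * H / X) hζ hcol h5 hz
  refine ⟨v, hv1, hv2, ?_, ?_⟩
  · rwa [le_div_iff₀ hκH] at hv3
  · rwa [le_div_iff₀ hX] at hv4

/-- a point in a heavy window of direction `v` -/
def Hv (θ κ₀ c : ℝ) (H R : ℕ) (P v : ℤ × ℤ) : Prop :=
  IsCoprime v.1 v.2 ∧ v.1 ≠ 0 ∧ |(v.1 : ℝ)| * R * (κ₀ * H) ≤ |(P.1 : ℝ)| ∧ |(v.2 : ℝ) - θ * v.1| * R * |(P.1 : ℝ)| ≤ c * H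

/-- one half of the determinant of two directions -/
theorem det_half (θ κ₀ c : ℝ) (H C' : ℕ) (hH : 1 ≤ H) (hκ : 1 ≤ κ₀) (hc : 0 ≤ c) (hC' : 4 * c < C') (P P' v v' : ℤ × ℤ)
    (hv : |(v.1 : ℝ)| * ((C' * H : ℕ) : ℝ) * (κ₀ * H) ≤ |(P.1 : ℝ)|)
    (hv' : |(v'.2 : ℝ) - θ * v'.1| * ((C' * H : ℕ) : ℝ) * |(P'.1 : ℝ)| ≤ c * H)
    (hP' : P'.1 ≠ 0) (hPP : |(P.1 : ℝ)| ≤ 2 * H ^ 2 * |(P'.1 : ℝ)|) :
    |(v.1 : ℝ) * (v'.2 - θ * v'.1)| < 1 / 2 := by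
  have hH' : (1 : ℝ) ≤ (H : ℝ) := by exact_mod_cast hH
  have hH0 : (0 : ℝ) < (H : ℝ) := by linarith
  have hC'0 : (0 : ℝ) < (C' : ℝ) := by linarith
  have hC'1 : (1 : ℝ) ≤ (C' : ℝ) := by
    have : 0 < C' := by exact_mod_cast hC'0
    exact_mod_cast this
  have hp0 : 0 < |(P'.1 : ℝ)| := abs_pos.2 (by exact_mod_cast hP')
  push_cast at hv hv'
  rw [abs_mul]
  obtain ⟨a, ha⟩ : ∃ a : ℝ, a = |(v.1 : ℝ)| := ⟨_, rfl⟩
  obtain ⟨b, hb⟩ : ∃ b : ℝ, b = |(v'.2 : ℝ) - θ * v'.1| := ⟨_, rfl⟩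
  obtain ⟨x, hx⟩ : ∃ x : ℝ, x = |(P'.1 : ℝ)| := ⟨_, rfl⟩
  rw [← ha] at hv ⊢
  rw [← hb, ← hx] at hv'
  rw [← hb]
  rw [← hx] at hPP hp0
  have ha0 : 0 ≤ a := by rw [ha]; exact abs_nonneg _
  have hb0 : 0 ≤ b := by rw [hb]; exact abs_nonneg _
  have h1 : a * (C' * H) * (κ₀ * H) ≤ 2 * H ^ 2 * x := hv.trans hPP
  have h2 : (a * (C' * H) * (κ₀ * H)) * (b * (C' * H) * x) ≤ (2 * H ^ 2 * x) * (c * H) :=
    mul_le_mul h1 hv' (by positivity) (by positivity)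
  have h3 : (a * b) * (C' ^ 2 * κ₀) * (H ^ 3 * x) ≤ (2 * c) * (H ^ 3 * x) := by
    have e1 : (a * (C' * H) * (κ₀ * H)) * (b * (C' * H) * x) = (a * b) * (C' ^ 2 * κ₀) * (H ^ 3 * x) := by ring
    have e2 : (2 * (H : ℝ) ^ 2 * x) * (c * H) = (2 * c) * (H ^ 3 * x) := by ring
    rwa [e1, e2] at h2
  have h4 : (a * b) * (C' ^ 2 * κ₀) ≤ 2 * c := le_of_mul_le_mul_right h3 (by positivity)
  have h5 : (C' : ℝ) ≤ C' ^ 2 * κ₀ := by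
    calc (C' : ℝ) = C' * 1 * 1 := by ring
      _ ≤ C' * C' * κ₀ := by gcongr
      _ = _ := by ring
  have h6 : (a * b) * C' ≤ 2 * c := (mul_le_mul_of_nonneg_left h5 (by positivity)).trans h4
  by_contra hcon
  push Not at hcon
  nlinarith

/-- two heavy points of one class: same direction and same line -/
theorem crs (C κ₀ θ c : ℝ) (H C' : ℕ) (hH : 1 ≤ H) (hκ : 1 ≤ κ₀) (hC : 1 ≤ C) (hc : 0 ≤ c) (hC' : 4 * c + 6 * C < C')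
    (P P' v v' : ℤ × ℤ) (hv : Hv θ κ₀ c H (C' * H) P v) (hv' : Hv θ κ₀ c H (C' * H) P' v') (hN : Nd θ C H P P')
    (hs : 0 < P.1 * P'.1) (hPP : |(P.1 : ℝ)| ≤ 2 * H ^ 2 * |(P'.1 : ℝ)|) (hPP' : |(P'.1 : ℝ)| ≤ 2 * H ^ 2 * |(P.1 : ℝ)|) :
    (v' = v ∨ v' = -v) ∧ (P'.1 - P.1) * v.2 = (P'.2 - P.2) * v.1 := by
  have hH' : (1 : ℝ) ≤ (H : ℝ) := by exact_mod_cast hH
  have hH0 : (0 : ℝ) < (H : ℝ) := by linarith
  have hP0 : P.1 ≠ 0 := by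
    rintro h
    rw [h, zero_mul] at hs
    exact lt_irrefl _ hs
  have hP0' : P'.1 ≠ 0 := by
    rintro h
    rw [h, mul_zero] at hs
    exact lt_irrefl _ hs
  have hpar : v' = v ∨ v' = -v := by
    refine par hv.1 hv'.1 hv.2.1 ?_
    have d1 := det_half θ κ₀ c H C' hH hκ hc (by linarith) P P' v v' hv.2.2.1 hv'.2.2.2 hP0' hPP
    have d2 := det_half θ κ₀ c H C' hH hκ hc (by linarith) P' P v' v hv'.2.2.1 hv.2.2.2 hP0 hPP'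
    have e1 : ((v.1 * v'.2 - v'.1 * v.2 : ℤ) : ℝ) = (v.1 : ℝ) * (v'.2 - θ * v'.1) - (v'.1 : ℝ) * (v.2 - θ * v.1) := by
      push_cast
      ring
    have b4 : |((v.1 * v'.2 - v'.1 * v.2 : ℤ) : ℝ)| < 1 := by
      rw [e1]
      refine lt_of_le_of_lt (abs_sub _ _) ?_
      linarith
    have b5 : |(v.1 * v'.2 - v'.1 * v.2 : ℤ)| < 1 := by
      rw [← Int.cast_abs] at b4
      exact_mod_cast b4
    have := Int.abs_lt_one_iff.1 b5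
    linarith
  refine ⟨hpar, ?_⟩
  -- the line: first for `|x| ≤ |x'|`
  have main : ∀ (P P' v : ℤ × ℤ), Nd θ C H P P' → 0 < P.1 * P'.1 → |(P.1 : ℝ)| ≤ |(P'.1 : ℝ)| →
      |(v.1 : ℝ)| * ((C' * H : ℕ) : ℝ) * (κ₀ * H) ≤ |(P.1 : ℝ)| →
      |(v.2 : ℝ) - θ * v.1| * ((C' * H : ℕ) : ℝ) * |(P'.1 : ℝ)| ≤ c * H → (P'.1 - P.1) * v.2 = (P'.2 - P.2) * v.1 := by
    intro P P' v hN hs hle h1 h2
    have hC'0 : (0 : ℝ) < (C' : ℝ) := by linarith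
    have hp0 : 0 < |(P.1 : ℝ)| := by
      rw [abs_pos]
      intro h
      have : P.1 = 0 := by exact_mod_cast h
      rw [this, zero_mul] at hs
      exact lt_irrefl _ hs
    have hp0' : 0 < |(P'.1 : ℝ)| := lt_of_lt_of_le hp0 hle
    have hx : (P.1 : ℝ) ≠ 0 := abs_pos.1 hp0
    have hx' : (P'.1 : ℝ) ≠ 0 := abs_pos.1 hp0'
    have hs' : (0 : ℝ) < (P.1 : ℝ) * P'.1 := by exact_mod_cast hs
    push_cast at h1 h2
    -- difference of the abscissas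
    have hdx : |(P'.1 : ℝ) - P.1| ≤ |(P'.1 : ℝ)| := by
      rcases pos_and_pos_or_neg_and_neg_of_mul_pos hs' with ⟨a1, a2⟩ | ⟨a1, a2⟩
      · rw [abs_of_pos a1, abs_of_pos a2] at hle
        rw [abs_of_pos a2, abs_of_nonneg (by linarith)]
        linarith
      · rw [abs_of_neg a1, abs_of_neg a2] at hle
        rw [abs_of_neg a2, abs_of_nonpos (by linarith)]
        linarith
    -- difference of the heights
    have hdz : |((P'.2 : ℝ) - θ * P'.1) - (P.2 - θ * P.1)| * |(P.1 : ℝ)| ≤ 3 * C * H ^ 2 := by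
      rw [abs_sub_comm]
      have g1 : |1 / (P.1 : ℝ) - 1 / P'.1| ≤ 1 / |(P.1 : ℝ)| := by
        have e1 : 1 / (P.1 : ℝ) - 1 / P'.1 = (P'.1 - P.1) / (P.1 * P'.1) := by field_simp
        rw [e1, abs_div, abs_mul, div_le_div_iff₀ (by positivity) hp0, one_mul, mul_comm]
        exact mul_le_mul_of_nonneg_left hdx hp0.le
      have g2 : 1 / |(P'.1 : ℝ)| ≤ 1 / |(P.1 : ℝ)| := one_div_le_one_div_of_le hp0 hle
      have g3 : (H : ℝ) ^ 2 * |1 / (P.1 : ℝ) - 1 / P'.1| + H * (1 / |(P.1 : ℝ)| + 1 / |(P'.1 : ℝ)|) ≤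
          (H : ℝ) ^ 2 * (1 / |(P.1 : ℝ)|) + H * (1 / |(P.1 : ℝ)| + 1 / |(P.1 : ℝ)|) := by gcongr
      have g4 : (H : ℝ) ^ 2 * (1 / |(P.1 : ℝ)|) + H * (1 / |(P.1 : ℝ)| + 1 / |(P.1 : ℝ)|) ≤ 3 * H ^ 2 / |(P.1 : ℝ)| := by
        have e1 : (H : ℝ) ^ 2 * (1 / |(P.1 : ℝ)|) + H * (1 / |(P.1 : ℝ)| + 1 / |(P.1 : ℝ)|) = (H ^ 2 + 2 * H) / |(P.1 : ℝ)| := by
          field_simp
          ring
        rw [e1]
        apply div_le_div_of_nonneg_right _ hp0.le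
        nlinarith
      have g5 : |((P.2 : ℝ) - θ * P.1) - (P'.2 - θ * P'.1)| ≤ C * (3 * H ^ 2 / |(P.1 : ℝ)|) :=
        hN.trans (mul_le_mul_of_nonneg_left (g3.trans g4) (by linarith))
      calc _ ≤ C * (3 * H ^ 2 / |(P.1 : ℝ)|) * |(P.1 : ℝ)| := mul_le_mul_of_nonneg_right g5 hp0.le
        _ = 3 * C * H ^ 2 := by field_simp
    have e1 : (((P'.1 - P.1) * v.2 - (P'.2 - P.2) * v.1 : ℤ) : ℝ) =
        ((P'.1 : ℝ) - P.1) * (v.2 - θ * v.1) - (((P'.2 : ℝ) - θ * P'.1) - (P.2 - θ * P.1)) * v.1 := by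
      push_cast
      ring
    have b1 : |((P'.1 : ℝ) - P.1) * (v.2 - θ * v.1)| * C' ≤ c := by
      rw [abs_mul]
      have g1 : (|(P'.1 : ℝ) - P.1| * |(v.2 : ℝ) - θ * v.1| * C') * H ≤ c * H := by
        calc _ = (|(v.2 : ℝ) - θ * v.1| * (C' * H)) * |(P'.1 : ℝ) - P.1| := by ring
          _ ≤ (|(v.2 : ℝ) - θ * v.1| * (C' * H)) * |(P'.1 : ℝ)| := mul_le_mul_of_nonneg_left hdx (by positivity)
          _ ≤ c * H := h2
      exact le_of_mul_le_mul_right g1 hH0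
    have b2 : |(((P'.2 : ℝ) - θ * P'.1) - (P.2 - θ * P.1)) * v.1| * C' ≤ 3 * C := by
      rw [abs_mul]
      obtain ⟨d, hd⟩ : ∃ d : ℝ, d = |((P'.2 : ℝ) - θ * P'.1) - (P.2 - θ * P.1)| := ⟨_, rfl⟩
      rw [← hd] at hdz ⊢
      have hd0 : 0 ≤ d := by rw [hd]; exact abs_nonneg _
      have g1 : (|(v.1 : ℝ)| * (C' * H) * (κ₀ * H)) * d ≤ |(P.1 : ℝ)| * d := mul_le_mul_of_nonneg_right h1 hd0
      have g2 : (d * |(v.1 : ℝ)| * C') * κ₀ * H ^ 2 ≤ (3 * C) * H ^ 2 := by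
        calc (d * |(v.1 : ℝ)| * C') * κ₀ * H ^ 2 = (|(v.1 : ℝ)| * (C' * H) * (κ₀ * H)) * d := by ring
          _ ≤ |(P.1 : ℝ)| * d := g1
          _ = d * |(P.1 : ℝ)| := by ring
          _ ≤ _ := hdz
      have g3 : (d * |(v.1 : ℝ)| * C') * κ₀ ≤ 3 * C := le_of_mul_le_mul_right g2 (by positivity)
      have g4 : d * |(v.1 : ℝ)| * C' ≤ (d * |(v.1 : ℝ)| * C') * κ₀ := le_mul_of_one_le_right (by positivity) hκ
      exact g4.trans g3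
    have b4 : |(((P'.1 - P.1) * v.2 - (P'.2 - P.2) * v.1 : ℤ) : ℝ)| < 1 := by
      rw [e1]
      refine lt_of_le_of_lt (abs_sub _ _) ?_
      by_contra hcon
      push Not at hcon
      nlinarith
    have b5 : |((P'.1 - P.1) * v.2 - (P'.2 - P.2) * v.1 : ℤ)| < 1 := by
      rw [← Int.cast_abs] at b4
      exact_mod_cast b4
    have := Int.abs_lt_one_iff.1 b5
    linarith
  rcases le_total |(P.1 : ℝ)| |(P'.1 : ℝ)| with hle | hle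
  · refine main P P' v hN hs hle hv.2.2.1 ?_
    have h2 := hv'.2.2.2
    rcases hpar with h | h
    · rw [h] at h2
      exact h2
    · have e1 : |((v'.2 : ℤ) : ℝ) - θ * v'.1| = |(v.2 : ℝ) - θ * v.1| := by
        rw [h]
        simp only [Prod.fst_neg, Prod.snd_neg, Int.cast_neg]
        rw [← abs_neg]
        congr 1
        ring
      rw [e1] at h2
      exact h2
  · have h3 := main P' P v' hN.symm (by rw [mul_comm]; exact hs) hle hv'.2.2.1 ?_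
    · rcases hpar with h | h
      · rw [h] at h3
        linarith
      · rw [h] at h3
        simp only [Prod.fst_neg, Prod.snd_neg] at h3
        linarith
    · have h2 := hv.2.2.2
      rcases hpar with h | h
      · rw [h]
        exact h2
      · have e1 : |((v'.2 : ℤ) : ℝ) - θ * v'.1| = |(v.2 : ℝ) - θ * v.1| := by
          rw [h]
          simp only [Prod.fst_neg, Prod.snd_neg, Int.cast_neg]
          rw [← abs_neg]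
          congr 1
          ring
        rw [e1]
        exact h2

end Pool.Agent.H12.A3
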